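import Pool.Agent.J6H9.EX.Stm2

/-!
# EX-REP
-/

set_option autoImplicit false

namespace Pool.Agent.J6H42.EX

open Filter Topology Pool.Agent.J6H9.EU Pool.Agent.J6H9.EX

lemma ex_a (F : ℕ → ℝ) (h : ∀ m : ℕ, ∃ a : ℕ, m < a ∧ 2 * F m + 1 ≤ F a) :
    ∃ a : ℕ → ℕ, a 0 = 0 ∧ ∀ k, a k < a (k+1) ∧ 2 * F (a k) + 1 ≤ F (a (k+1)) ∧
      ∀ b, a k < b → b < a (k+1) → F b < 2 * F (a k) + 1 := by
  classical
  choose g hg using fun m : ℕ => (⟨Nat.find (h m), Nat.find_spec (h m),
    fun b hb => Nat.find_min (h m) hb⟩ : ∃ a : ℕ, (m < a ∧ 2 * F m + 1 ≤ F a) ∧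
      ∀ b, b < a → ¬ (m < b ∧ 2 * F m + 1 ≤ F b))
  refine ⟨fun k => g^[k] 0, rfl, fun k => ?_⟩
  simp only [Function.iterate_succ_apply']
  refine ⟨(hg _).1.1, (hg _).1.2, fun b hb1 hb2 => ?_⟩
  have := (hg _).2 b hb2
  push Not at this
  exact this hb1

theorem main : S_REP := by
  classical
  intro f hf hT hs
  set F : ℕ → ℝ := fun n => ∑ i ∈ Finset.range n, f i with hF
  have hFs : ∀ n, F (n+1) = F n + f n := fun n => Finset.sum_range_succ _ _
  have hFm : StrictMono F := strictMono_nat_of_lt_succ (fun n => by rw [hFs]; linarith [hf n])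
  have hF0 : F 0 = 0 := by simp [hF]
  have hFp : ∀ n, 0 ≤ F n := fun n => by rw [← hF0]; exact hFm.monotone (Nat.zero_le n)
  have hex : ∀ m : ℕ, ∃ a : ℕ, m < a ∧ 2 * F m + 1 ≤ F a := fun m => by
    obtain ⟨a, ha⟩ := ((hT.eventually_ge_atTop (2 * F m + 1)).and (eventually_gt_atTop m)).exists
    exact ⟨a, ha.2, ha.1⟩
  obtain ⟨a, a0, ha⟩ := ex_a F hex
  have am : StrictMono a := strictMono_nat_of_lt_succ (fun k => (ha k).1)
  have ale : ∀ k, k ≤ a k := fun k => am.le_apply
  let d : ℕ → ℕ := fun k => a (k+1) - a k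
  have hst : ∀ k, st d k = a k := by
    intro k
    induction k with
    | zero => simp [st, a0]
    | succ k ih =>
      have e : st d (k+1) = st d k + d k := Finset.sum_range_succ _ _
      rw [e, ih]
      have := (ha k).1
      simp only [d]
      omega
  have hD : ∀ k, Dn d k = Finset.Ico (a k) (a (k+1)) := by
    intro k
    rw [Dn, hst]
    congr 1
    have := (ha k).1
    simp only [d]
    omega
  let idx : ℕ → ℕ := fun x => Nat.findGreatest (fun k => a k ≤ x) x
  have hidx : ∀ k x, a k ≤ x → x < a (k+1) → idx x = k := by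
    intro k x h1 h2
    apply le_antisymm
    · by_contra h
      push Not at h
      have h3 : a (idx x) ≤ x :=
        Nat.findGreatest_spec (P := fun k => a k ≤ x) (Nat.zero_le x) (by simp [a0])
      have : a (k+1) ≤ a (idx x) := am.monotone h
      omega
    · exact Nat.le_findGreatest (le_trans (ale k) h1) h1
  let M : ℕ → ℝ := fun k => F (a (k+1)) - F (a k)
  have hM : ∀ k, 0 < M k := fun k => sub_pos.2 (hFm (ha k).1)
  have hM2 : ∀ k, F (a (k+1)) ≤ 2 * M k := fun k => by
    have := (ha k).2.1
    simp only [M]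
    linarith
  let w : ℕ → ℝ := fun x => f x / M (idx x)
  have hsum : ∀ k (P : Finset ℕ), P ⊆ Dn d k → ∑ x ∈ P, w x = (∑ x ∈ P, f x) / M k := by
    intro k P hP
    rw [Finset.sum_div]
    apply Finset.sum_congr rfl
    intro x hx
    have := hP hx
    rw [hD, Finset.mem_Ico] at this
    simp only [w, hidx k x this.1 this.2]
  have hDsum : ∀ k, ∑ x ∈ Dn d k, f x = M k := by
    intro k
    rw [hD, Finset.sum_Ico_eq_sub f (ha k).1.le]
  refine ⟨w, d, ⟨fun x => div_pos (hf x) (hM _), fun n => ?_, fun n => ?_, ⟨1, one_pos, fun n => ?_⟩, ?_⟩, ?_⟩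
  · have := (ha n).1
    simp only [d]
    omega
  · rw [hsum n _ (subset_refl _), hDsum, div_self (hM n).ne']
  · rw [hsum n _ (subset_refl _), hDsum, div_self (hM n).ne']
  · intro ε hε
    obtain ⟨X, hX⟩ := Filter.eventually_atTop.1 (hs.eventually (gt_mem_nhds (show (0:ℝ) < ε / 2 by linarith)))
    refine ⟨X, fun n hn x hx => ?_⟩
    rw [hD, Finset.mem_Ico] at hx
    have h1 : f x / F (x+1) < ε / 2 := hX x (le_trans hn (le_trans (ale n) hx.1))
    have h2 : F (x+1) ≤ F (a (n+1)) := hFm.monotone hx.2
    have h3 : 0 < F (x+1) := lt_of_le_of_lt (hFp x) (hFm (Nat.lt_succ_self x))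
    simp only [w, hidx n x hx.1 hx.2]
    rw [div_lt_iff₀ h3] at h1
    rw [div_le_iff₀ (hM n)]
    nlinarith [hM2 n]
  · -- equality of the ideals
    have hGk : ∀ (A : Set ℕ) k, ∑ x ∈ (Dn d k).filter (· ∈ A), f x
        = M k * ∑ x ∈ (Dn d k).filter (· ∈ A), w x := by
      intro A k
      rw [hsum k _ (Finset.filter_subset _ _), mul_div_cancel₀ _ (hM k).ne']
    ext A
    set G : ℕ → ℝ := fun n => ∑ i ∈ (Finset.range n).filter (· ∈ A), f i with hG
    have hGm : Monotone G := by
      intro m n hmn
      apply Finset.sum_le_sum_of_subset_of_nonneg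
      · intro x hx
        simp only [Finset.mem_filter, Finset.mem_range] at hx ⊢
        exact ⟨lt_of_lt_of_le hx.1 hmn, hx.2⟩
      · intro i _ _
        exact (hf i).le
    have hG0 : ∀ n, 0 ≤ G n := fun n => Finset.sum_nonneg (fun i _ => (hf i).le)
    set r : ℕ → ℝ := fun k => ∑ x ∈ (Dn d k).filter (· ∈ A), w x with hr
    have hr0 : ∀ k, 0 ≤ r k := fun k => Finset.sum_nonneg (fun i _ => (div_pos (hf i) (hM _)).le)
    have hGs : ∀ k, G (a (k+1)) = G (a k) + M k * r k := by
      intro k
      rw [hr]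
      simp only
      rw [← hGk, hD]
      simp only [hG]
      rw [← Finset.sum_union]
      · congr 1
        rw [← Finset.filter_union]
        congr 1
        ext x
        simp only [Finset.mem_union, Finset.mem_range, Finset.mem_Ico]
        have := (ha k).1
        omega
      · apply Finset.disjoint_filter_filter
        rw [Finset.disjoint_left]
        intro x hx hx'
        simp only [Finset.mem_range, Finset.mem_Ico] at hx hx'
        omega
    show Tendsto (fun n => G n / F n) atTop (𝓝 0) ↔ Tendsto r atTop (𝓝 0)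
    constructor
    · intro h
      have h1 : Tendsto (fun k => 2 * (G (a (k+1)) / F (a (k+1)))) atTop (𝓝 0) := by
        have := ((h.comp am.tendsto_atTop).comp (tendsto_add_atTop_nat 1)).const_mul 2
        simpa using this
      refine squeeze_zero hr0 (fun k => ?_) h1
      have h3 : 0 < F (a (k+1)) := lt_of_le_of_lt (hFp (a k)) (hFm (ha k).1)
      rw [← mul_div_assoc, le_div_iff₀ h3]
      have := hGs k
      nlinarith [hM2 k, hr0 k, hG0 (a k)]
    · intro h
      rw [Metric.tendsto_atTop]
      intro ε hε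
      -- r i ≤ δ for i ≥ i0
      obtain ⟨i0, hi0⟩ := Filter.eventually_atTop.1 (h.eventually (gt_mem_nhds (show (0:ℝ) < ε / 10 by linarith)))
      obtain ⟨X, hX⟩ := Filter.eventually_atTop.1 (hs.eventually (gt_mem_nhds (show (0:ℝ) < 1 / 2 by norm_num)))
      have hGi : ∀ k, i0 ≤ k → G (a k) ≤ G (a i0) + ε / 10 * F (a k) := by
        intro k hk
        induction k, hk using Nat.le_induction with
        | base => nlinarith [hFp (a i0)]
        | succ k hk ih =>
          rw [hGs]
          have h1 := hi0 k hk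
          have h2 : F (a (k+1)) = F (a k) + M k := by simp only [M]; ring
          rw [h2]
          nlinarith [hM k]
      have hF4 : ∀ k, X ≤ k → F (a (k+1)) ≤ 4 * F (a k) + 2 := by
        intro k hk
        obtain ⟨b, hb⟩ : ∃ b, a (k+1) = b + 1 := ⟨a (k+1) - 1, by have := (ha k).1; omega⟩
        have hab : a k ≤ b := by have := (ha k).1; omega
        have h1 : F b ≤ 2 * F (a k) + 1 := by
          rcases hab.eq_or_lt with e | e
          · rw [← e]; linarith [hFp (a k)]
          · exact ((ha k).2.2 b e (by omega)).le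
        have h2 : f b / F (b+1) < 1 / 2 := hX b (le_trans hk (le_trans (ale k) hab))
        have h3 : 0 < F (b+1) := lt_of_le_of_lt (hFp b) (hFm (Nat.lt_succ_self b))
        rw [div_lt_iff₀ h3] at h2
        rw [hb]
        have := hFs b
        linarith
      obtain ⟨N1, hN1⟩ := Filter.eventually_atTop.1
        (hT.eventually_gt_atTop ((G (a i0) + ε) * (10 / ε)))
      refine ⟨max N1 (max (a (max i0 X)) 1), fun N hN => ?_⟩
      have hNN1 : N1 ≤ N := le_trans (le_max_left _ _) hN
      have hNa : a (max i0 X) ≤ N := le_trans (le_trans (le_max_left _ _) (le_max_right _ _)) hN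
      have hN0 : 0 < N := le_trans (le_trans (le_max_right _ _) (le_max_right _ _)) hN
      have hFN : 0 < F N := by rw [← hF0]; exact hFm hN0
      rw [Real.dist_eq, sub_zero, abs_of_nonneg (div_nonneg (hG0 N) hFN.le), div_lt_iff₀ hFN]
      -- k = idx N
      have hk1 : a (idx N) ≤ N :=
        Nat.findGreatest_spec (P := fun k => a k ≤ N) (Nat.zero_le N) (by simp [a0])
      have hk3 : max i0 X ≤ idx N :=
        Nat.le_findGreatest (le_trans (ale _) hNa) hNa
      have hk2 : N < a (idx N + 1) := by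
        by_contra hcon
        push Not at hcon
        have : idx N + 1 ≤ idx N := Nat.le_findGreatest (le_trans (ale _) hcon) hcon
        omega
      generalize idx N = k at hk1 hk2 hk3
      have e1 : G N ≤ G (a (k+1)) := hGm hk2.le
      have e2 := hGi (k+1) (le_trans (le_trans (le_max_left _ _) hk3) (Nat.le_succ k))
      have e3 := hF4 k (le_trans (le_max_right _ _) hk3)
      have e4 : F (a k) ≤ F N := hFm.monotone hk1
      have e5 : (G (a i0) + ε) * (10 / ε) < F N := hN1 N hNN1
      have e6 : (G (a i0) + ε) < F N * (ε / 10) := by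
        have : (G (a i0) + ε) = (G (a i0) + ε) * (10 / ε) * (ε / 10) := by
          field_simp
        rw [this]
        exact mul_lt_mul_of_pos_right e5 (by positivity)
      nlinarith [hG0 (a i0)]

end Pool.Agent.J6H42.EX
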